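import Pool.Agent.Q256.MP.Stm

/-!
# Project MP: the primitive polynomial of a finite set of algebraic numbers (job FMIN)
-/

set_option autoImplicit false

open Polynomial

namespace Pool.Agent.Q237.MP

/-- the ideal of the polynomials which vanish at all points -/
noncomputable def I {m : ℕ} (x : Fin m → ℂ) : Ideal ℚ[X] :=
  ⨅ i, RingHom.ker (Polynomial.aeval (R := ℚ) (x i)).toRingHom

lemma mem_I {m : ℕ} (x : Fin m → ℂ) (g : ℚ[X]) : g ∈ I x ↔ ∀ i, Polynomial.aeval (x i) g = 0 := by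
  unfold I
  rw [Ideal.mem_iInf]
  exact Iff.rfl

theorem fmin : Pool.Agent.Q256.MP.S_fmin := by
  intro m x hx halg
  obtain ⟨p, hp⟩ := (IsPrincipalIdealRing.principal (I x)).1
  have hp' : ∀ g : ℚ[X], (∀ i, Polynomial.aeval (x i) g = 0) ↔ p ∣ g := by
    intro g
    rw [← mem_I, hp]
    exact Ideal.mem_span_singleton
  have hp0 : p ≠ 0 := by
    intro h0
    have h1 : ∀ i, Polynomial.aeval (x i) (∏ j, minpoly ℚ (x j)) = 0 := by
      intro i
      rw [map_prod]
      exact Finset.prod_eq_zero (Finset.mem_univ i) (minpoly.aeval ℚ (x i))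
    have h2 := (hp' _).1 h1
    rw [h0, zero_dvd_iff, Finset.prod_eq_zero_iff] at h2
    obtain ⟨j, _, hj⟩ := h2
    exact minpoly.ne_zero (halg j).isIntegral hj
  -- the integral polynomial
  obtain ⟨b, hb⟩ := IsLocalization.integerNormalization_map_to_map (nonZeroDivisors ℤ) p
  let n : ℤ[X] := IsLocalization.integerNormalization (nonZeroDivisors ℤ) p
  have hn : n.map (algebraMap ℤ ℚ) = (b : ℤ) • p := hb
  have hb0 : ((b : ℤ) : ℚ) ≠ 0 := by
    have := nonZeroDivisors.ne_zero b.2
    exact_mod_cast this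
  have hbp : ((b : ℤ) • p : ℚ[X]) = C ((b : ℤ) : ℚ) * p := by
    rw [← Polynomial.smul_eq_C_mul]
    ext k
    simp
  have hn0 : n ≠ 0 := by
    intro h0
    rw [h0, Polynomial.map_zero, hbp] at hn
    rcases mul_eq_zero.1 hn.symm with h | h
    · exact hb0 (Polynomial.C_eq_zero.1 h)
    · exact hp0 h
  let f : ℤ[X] := n.primPart
  have hf0 : f ≠ 0 := n.isPrimitive_primPart.ne_zero
  have hc0 : ((n.content : ℤ) : ℚ) ≠ 0 := by
    have : n.content ≠ 0 := fun h => hn0 (Polynomial.content_eq_zero_iff.1 h)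
    exact_mod_cast this
  have hnf : n.map (algebraMap ℤ ℚ) = C ((n.content : ℤ) : ℚ) * f.map (algebraMap ℤ ℚ) := by
    conv_lhs => rw [n.eq_C_content_mul_primPart]
    rw [Polynomial.map_mul, Polynomial.map_C]
    rfl
  -- the divisibilities over the rationals
  have hdv1 : p ∣ f.map (algebraMap ℤ ℚ) := by
    have h1 : C ((n.content : ℤ) : ℚ)⁻¹ * (C ((n.content : ℤ) : ℚ) * f.map (algebraMap ℤ ℚ)) =
        f.map (algebraMap ℤ ℚ) := by
      rw [← mul_assoc, ← C_mul, inv_mul_cancel₀ hc0, C_1, one_mul]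
    rw [← h1, ← hnf, hn, hbp]
    exact ((dvd_refl p).mul_left _).mul_left _
  have hdv2 : f.map (algebraMap ℤ ℚ) ∣ p := by
    have h1 : C ((b : ℤ) : ℚ)⁻¹ * (C ((b : ℤ) : ℚ) * p) = p := by
      rw [← mul_assoc, ← C_mul, inv_mul_cancel₀ hb0, C_1, one_mul]
    rw [← h1, ← hbp, ← hn, hnf]
    exact ((dvd_refl _).mul_left _).mul_left _
  have hav : ∀ (g : ℤ[X]) i, Polynomial.aeval (x i) g =
      Polynomial.aeval (x i) (g.map (algebraMap ℤ ℚ)) := by
    intro g i
    rw [Polynomial.aeval_map_algebraMap]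
  have hfx : ∀ i, Polynomial.aeval (x i) f = 0 := by
    intro i
    rw [hav]
    exact (hp' _).2 hdv1 i
  refine ⟨f, hf0, ?_, hfx, ?_⟩
  · let F : ℂ[X] := f.map (algebraMap ℤ ℂ)
    have hF0 : F ≠ 0 := (Polynomial.map_ne_zero_iff (RingHom.injective_int _)).2 hf0
    have h1 : Finset.univ.image x ⊆ F.roots.toFinset := by
      intro y hy
      obtain ⟨i, _, rfl⟩ := Finset.mem_image.1 hy
      rw [Multiset.mem_toFinset, Polynomial.mem_roots hF0, Polynomial.IsRoot.def,
        Polynomial.eval_map_algebraMap]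
      exact hfx i
    have h2 := Finset.card_le_card h1
    rw [Finset.card_image_of_injective _ hx, Finset.card_univ, Fintype.card_fin] at h2
    exact h2.trans ((Multiset.toFinset_card_le _).trans
      ((Polynomial.card_roots' F).trans Polynomial.natDegree_map_le))
  · intro g hg
    have h1 : p ∣ g.map (algebraMap ℤ ℚ) := by
      rw [← hp']
      intro i
      rw [← hav]
      exact hg i
    have h2 : f.map (algebraMap ℤ ℚ) ∣ g.map (algebraMap ℤ ℚ) := hdv2.trans h1
    exact (Polynomial.IsPrimitive.Int.dvd_iff_map_cast_dvd_map_cast f g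
      n.isPrimitive_primPart).2 h2

end Pool.Agent.Q237.MP
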