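import Pool.Agent.Q237.MP_GELF
import Pool.Agent.Q237.MP_FMIN
import Pool.Agent.W347.GE.Root

/-!
# Project MP: binary forms which vanish at given algebraic numbers (job BIN)
-/

set_option autoImplicit false

open Polynomial Height NumberField

namespace Pool.Agent.Q237.MP

/-- the polynomial with given coefficients -/
noncomputable def pol {n : ℕ} (g : Fin n → ℤ) : ℤ[X] := ∑ k, C (g k) * X ^ (k : ℕ)

lemma pol_coeff {n : ℕ} (g : Fin n → ℤ) (k : Fin n) : (pol g).coeff k = g k := by
  unfold pol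
  rw [Polynomial.finset_sum_coeff, Finset.sum_eq_single k]
  · rw [Polynomial.coeff_C_mul, Polynomial.coeff_X_pow, if_pos rfl, mul_one]
  · intro j _ hj
    rw [Polynomial.coeff_C_mul, Polynomial.coeff_X_pow, if_neg (fun h => hj (Fin.ext h.symm)),
      mul_zero]
  · intro h
    exact absurd (Finset.mem_univ _) h

lemma pol_coeff_ge {n : ℕ} (g : Fin n → ℤ) (k : ℕ) (hk : n ≤ k) : (pol g).coeff k = 0 := by
  unfold pol
  rw [Polynomial.finset_sum_coeff]
  apply Finset.sum_eq_zero
  intro j _
  rw [Polynomial.coeff_C_mul, Polynomial.coeff_X_pow, if_neg (by have := j.2; omega), mul_zero]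

lemma pol_natDegree {d : ℕ} (g : Fin (d + 1) → ℤ) : (pol g).natDegree ≤ d :=
  Polynomial.natDegree_le_iff_coeff_eq_zero.2 fun k hk => pol_coeff_ge g k hk

lemma pol_aeval {n : ℕ} (g : Fin n → ℤ) {A : Type} [CommRing A] (x : A) :
    Polynomial.aeval x (pol g) = ∑ k, (g k : A) * x ^ (k : ℕ) := by
  unfold pol
  rw [map_sum]
  apply Finset.sum_congr rfl
  intro k _
  simp

lemma pol_eq {n : ℕ} (q : ℤ[X]) (hq : ∀ k, n ≤ k → q.coeff k = 0) :
    pol (fun k : Fin n => q.coeff k) = q := by
  ext k
  by_cases hk : k < n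
  · exact pol_coeff _ ⟨k, hk⟩
  · rw [pol_coeff_ge _ k (not_lt.1 hk), hq k (not_lt.1 hk)]

theorem bin (h1 : Pool.Agent.Q256.MP.S_gelf) (h2 : Pool.Agent.Q256.MP.S_fmin) :
    Pool.Agent.Q256.MP.S_bin := by
  intro D m d hD hm hmd
  obtain ⟨Cd, hCd, hG⟩ := h1 d
  refine ⟨(8 * Cd + 1) ^ (d + 1 - m) + 1, by positivity, ?_⟩
  intro H hH Y hY hYH x hx halg i₀ K _ _ φ ξ hK hξ hht
  have hH0 : (0 : ℝ) < H := by exact_mod_cast hH
  have hY0 : (0 : ℝ) < Y := by linarith
  obtain ⟨f, hf0, hfm, hfx, hfd⟩ := h2 m x hx halg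
  have hdv : ∀ g : Fin (d + 1) → ℤ, (∀ i, ∑ k, (g k : ℂ) * x i ^ (k : ℕ) = 0) → f ∣ pol g := by
    intro g hg
    apply hfd
    intro i
    rw [pol_aeval]
    exact hg i
  have hHY : 1 ≤ (H : ℝ) / Y := by rwa [one_le_div hY0]
  by_cases hfdeg : d < f.natDegree
  · have hS : {g : Fin (d + 1) → ℤ | (∀ k, |g k| ≤ 2 * (H : ℤ)) ∧
        ∀ i, ∑ k, (g k : ℂ) * x i ^ (k : ℕ) = 0} ⊆ {0} := by
      rintro g ⟨_, hg⟩
      obtain ⟨q, hq⟩ := hdv g hg
      have h3 : pol g = 0 := by
        by_contra hne
        have h4 := Polynomial.natDegree_le_of_dvd (Dvd.intro q hq.symm) hne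
        have h5 := pol_natDegree g
        omega
      rw [Set.mem_singleton_iff]
      funext k
      rw [← pol_coeff g k, h3, Polynomial.coeff_zero]
      rfl
    have h3 := Set.ncard_le_ncard hS (Set.finite_singleton 0)
    rw [Set.ncard_singleton] at h3
    have h4 : Y ^ (d + 1 - m) ≤ (H : ℝ) ^ (d + 1 - m) := pow_le_pow_left₀ hY0.le hYH _
    calc _ ≤ (1 : ℝ) * Y ^ (d + 1 - m) := by
          apply mul_le_mul_of_nonneg_right _ (by positivity)
          exact_mod_cast h3
      _ ≤ 1 * (H : ℝ) ^ (d + 1 - m) := by rw [one_mul, one_mul]; exact h4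
      _ ≤ ((8 * Cd + 1) ^ (d + 1 - m) + 1) * (H : ℝ) ^ (d + 1 - m) := by
          apply mul_le_mul_of_nonneg_right _ (by positivity)
          have : 0 ≤ (8 * Cd + 1) ^ (d + 1 - m) := by positivity
          linarith
  · have hfd' : f.natDegree ≤ d := not_lt.1 hfdeg
    -- the largest coefficient
    obtain ⟨i₁, _, hi₁⟩ := Finset.exists_max_image (Finset.univ : Finset (Fin (d + 1)))
      (fun k => |f.coeff k|) Finset.univ_nonempty
    have hmax : ∀ k : Fin (d + 1), |f.coeff k| ≤ |f.coeff i₁| := fun k => hi₁ k (Finset.mem_univ k)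
    have hZ1 : 1 ≤ |f.coeff i₁| := by
      have h3 : f.leadingCoeff ≠ 0 := Polynomial.leadingCoeff_ne_zero.2 hf0
      have h4 := hmax ⟨f.natDegree, by omega⟩
      have h5 : 1 ≤ |f.leadingCoeff| := Int.one_le_abs h3
      exact h5.trans h4
    obtain ⟨Z, hZ⟩ : ∃ Z : ℕ, (Z : ℤ) = |f.coeff i₁| := ⟨(f.coeff i₁).natAbs, by simp⟩
    have hZ1' : 1 ≤ Z := by have := hZ1; rw [← hZ] at this; exact_mod_cast this
    have hroot := Pool.Agent.W347.GE.root K d Z (fun k => f.coeff k) ξ hZ1'
      (by
        intro h3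
        have h4 := congrFun h3 i₁
        simp only [Pi.zero_apply] at h4
        rw [h4] at hZ1
        norm_num at hZ1)
      (fun k => by rw [hZ]; exact hmax k)
      (by
        have h3 := hfx i₀
        rw [← hξ] at h3
        have h4 : Polynomial.aeval (φ ξ) f = φ (Polynomial.aeval ξ f) := by
          rw [Polynomial.aeval_def, Polynomial.aeval_def, Polynomial.hom_eval₂]
          congr 1
          exact RingHom.ext_int _ _
        rw [h4, map_eq_zero] at h3
        have h5 : pol (fun k : Fin (d + 1) => f.coeff k) = f :=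
          pol_eq f fun k hk => Polynomial.coeff_eq_zero_of_natDegree_lt (by omega)
        rw [← h5, pol_aeval] at h3
        exact h3)
    have hZr : (1 : ℝ) ≤ Z := by exact_mod_cast hZ1'
    have hY2 : Y ≤ 2 * Z := by
      have h3 : Y ^ (2 * D) ≤ (2 * (Z : ℝ) ^ 2) ^ D := by
        refine hht.trans (hroot.trans ?_)
        apply pow_le_pow_right₀ _ hK
        nlinarith
      have h4 : Y ^ (2 * D) ≤ ((2 * (Z : ℝ)) ^ (2 * D)) := by
        refine h3.trans ?_
        rw [pow_mul]
        apply pow_le_pow_left₀ (by positivity)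
        nlinarith
      exact le_of_pow_le_pow_left₀ (by omega) (by positivity) h4
    set B : ℝ := 4 * Cd * (H / Y) with hB
    have hB0 : 0 ≤ B := by positivity
    let b : ℕ := ⌊B⌋₊
    let Q : Finset (Fin (d + 1 - m) → ℤ) := Fintype.piFinset fun _ => Finset.Icc (-(b : ℤ)) b
    let Ψ : (Fin (d + 1 - m) → ℤ) → (Fin (d + 1) → ℤ) := fun q k => (f * pol q).coeff k
    have hS : {g : Fin (d + 1) → ℤ | (∀ k, |g k| ≤ 2 * (H : ℤ)) ∧
        ∀ i, ∑ k, (g k : ℂ) * x i ^ (k : ℕ) = 0} ⊆ Ψ '' (Q : Set (Fin (d + 1 - m) → ℤ)) := by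
      rintro g ⟨hg1, hg2⟩
      obtain ⟨q, hq⟩ := hdv g hg2
      have hqdeg : ∀ k, d + 1 - m ≤ k → q.coeff k = 0 := by
        intro k hk
        by_cases hq0 : q = 0
        · rw [hq0, Polynomial.coeff_zero]
        · apply Polynomial.coeff_eq_zero_of_natDegree_lt
          have h3 : (pol g).natDegree = f.natDegree + q.natDegree := by
            rw [hq, Polynomial.natDegree_mul hf0 hq0]
          have h4 := pol_natDegree g
          omega
      have hqd : q.natDegree ≤ d := by
        by_cases hq0 : q = 0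
        · rw [hq0, Polynomial.natDegree_zero]; exact Nat.zero_le _
        · have h3 : (pol g).natDegree = f.natDegree + q.natDegree := by
            rw [hq, Polynomial.natDegree_mul hf0 hq0]
          have h4 := pol_natDegree g
          omega
      have hqb : ∀ j, |((q.coeff j : ℤ) : ℝ)| ≤ B := by
        intro j
        have h3 := hG f q hfd' hqd (2 * H) (by positivity) (by
          intro k
          rw [← hq]
          by_cases hk : k < d + 1
          · have h4 := pol_coeff g ⟨k, hk⟩
            have h5 := hg1 ⟨k, hk⟩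
            have h6 : (pol g).coeff k = g ⟨k, hk⟩ := h4
            rw [h6]
            exact_mod_cast h5
          · rw [pol_coeff_ge g k (not_lt.1 hk)]
            simp) i₁ j
        have h4 : |((f.coeff i₁ : ℤ) : ℝ)| = Z := by
          rw [← Int.cast_abs, ← hZ]
          simp
        rw [h4] at h3
        have h5 : |((q.coeff j : ℤ) : ℝ)| ≤ Cd * (2 * H) / Z := by
          rw [le_div_iff₀ (by positivity)]
          linarith
        refine h5.trans ?_
        rw [hB, div_le_iff₀ (by positivity)]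
        have h6 : 1 ≤ 2 * (Z : ℝ) / Y := by rwa [one_le_div hY0]
        calc Cd * (2 * H) = Cd * (2 * H) * 1 := by ring
          _ ≤ Cd * (2 * H) * (2 * (Z : ℝ) / Y) := mul_le_mul_of_nonneg_left h6 (by positivity)
          _ = 4 * Cd * (H / Y) * Z := by ring
      refine ⟨fun k => q.coeff k, ?_, ?_⟩
      · rw [Finset.mem_coe, Fintype.mem_piFinset]
        intro j
        rw [Finset.mem_Icc, ← abs_le]
        have h3 := hqb j
        have h4 : (((q.coeff j).natAbs : ℕ) : ℝ) ≤ B := by
          rw [Nat.cast_natAbs, Int.cast_abs]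
          exact h3
        have h5 : (q.coeff j).natAbs ≤ b := Nat.le_floor h4
        rw [Int.abs_eq_natAbs]
        exact_mod_cast h5
      · funext k
        show (f * pol (fun k : Fin (d + 1 - m) => q.coeff k)).coeff k = g k
        rw [pol_eq q hqdeg, ← hq, pol_coeff]
    have hfin : (Ψ '' (Q : Set (Fin (d + 1 - m) → ℤ))).Finite := (Finset.finite_toSet Q).image _
    have h3 := (Set.ncard_le_ncard hS hfin).trans (Set.ncard_image_le (Finset.finite_toSet Q))
    rw [Set.ncard_coe_finset] at h3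
    have h4 : Q.card = (2 * b + 1) ^ (d + 1 - m) := by
      show (Fintype.piFinset _).card = _
      rw [Fintype.card_piFinset, Finset.prod_const, Finset.card_univ, Fintype.card_fin,
        Int.card_Icc]
      congr 1
      omega
    have h5 : ((2 * b + 1 : ℕ) : ℝ) ≤ (8 * Cd + 1) * (H / Y) := by
      have h6 : (b : ℝ) ≤ B := Nat.floor_le hB0
      push_cast
      rw [hB] at h6
      nlinarith
    calc _ ≤ (((2 * b + 1 : ℕ) : ℝ) ^ (d + 1 - m)) * Y ^ (d + 1 - m) := by
          apply mul_le_mul_of_nonneg_right _ (by positivity)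
          rw [h4] at h3
          exact_mod_cast h3
      _ ≤ ((8 * Cd + 1) * (H / Y)) ^ (d + 1 - m) * Y ^ (d + 1 - m) := by
          apply mul_le_mul_of_nonneg_right _ (by positivity)
          exact pow_le_pow_left₀ (by positivity) h5 _
      _ = (8 * Cd + 1) ^ (d + 1 - m) * (H : ℝ) ^ (d + 1 - m) := by
          rw [← mul_pow, ← mul_pow]
          congr 1
          field_simp
      _ ≤ ((8 * Cd + 1) ^ (d + 1 - m) + 1) * (H : ℝ) ^ (d + 1 - m) := by
          apply mul_le_mul_of_nonneg_right _ (by positivity)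
          linarith

end Pool.Agent.Q237.MP
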