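import Pool.Agent.Q256.MP.Stm

/-!
# Project MP: Gelfond's inequality (job GELF)
-/

set_option autoImplicit false

open Polynomial

namespace Pool.Agent.Q237.MP

/-- the coefficients are bounded by the Mahler measure -/
lemma coeff_le (d : ℕ) (p : ℂ[X]) (hp : p.natDegree ≤ d) (i : ℕ) :
    ‖p.coeff i‖ ≤ 2 ^ d * p.mahlerMeasure := by
  refine (p.norm_coeff_le_choose_mul_mahlerMeasure i).trans ?_
  apply mul_le_mul_of_nonneg_right _ p.mahlerMeasure_nonneg
  have h1 : p.natDegree.choose i ≤ 2 ^ p.natDegree := Nat.choose_le_two_pow _ _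
  have h2 : 2 ^ p.natDegree ≤ 2 ^ d := Nat.pow_le_pow_right (by norm_num) hp
  exact_mod_cast h1.trans h2

lemma mahler_le (n : ℕ) (p : ℂ[X]) (hp : p.natDegree ≤ n) (T : ℝ) (hT : ∀ k, ‖p.coeff k‖ ≤ T) :
    p.mahlerMeasure ≤ (n + 1) * T := by
  have hT0 : 0 ≤ T := (norm_nonneg _).trans (hT 0)
  refine p.mahlerMeasure_le_sum_norm_coeff.trans ?_
  rw [Polynomial.sum_def]
  calc ∑ k ∈ p.support, ‖p.coeff k‖ ≤ ∑ _k ∈ p.support, T := Finset.sum_le_sum fun k _ => hT k
    _ = p.support.card * T := by rw [Finset.sum_const, nsmul_eq_mul]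
    _ ≤ (n + 1) * T := by
      apply mul_le_mul_of_nonneg_right _ hT0
      have h1 : p.support.card ≤ n + 1 := by
        have h2 : p.support ⊆ Finset.range (n + 1) :=
          (Polynomial.supp_subset_range_natDegree_succ).trans
            (Finset.range_subset_range.2 (by omega))
        simpa using Finset.card_le_card h2
      exact_mod_cast h1

theorem gelf : Pool.Agent.Q256.MP.S_gelf := by
  intro d
  refine ⟨4 ^ d * (2 * d + 1), by positivity, ?_⟩
  intro f q hf hq T hT h i j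
  let F : ℂ[X] := f.map (Int.castRingHom ℂ)
  let G : ℂ[X] := q.map (Int.castRingHom ℂ)
  have hF : F.natDegree ≤ d := Polynomial.natDegree_map_le.trans hf
  have hG : G.natDegree ≤ d := Polynomial.natDegree_map_le.trans hq
  have h1 : |((f.coeff i : ℤ) : ℝ)| = ‖F.coeff i‖ := by
    rw [Polynomial.coeff_map]
    simp
  have h2 : |((q.coeff j : ℤ) : ℝ)| = ‖G.coeff j‖ := by
    rw [Polynomial.coeff_map]
    simp
  have h3 : (F * G).natDegree ≤ 2 * d := Polynomial.natDegree_mul_le.trans (by omega)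
  have h4 : ∀ k, ‖(F * G).coeff k‖ ≤ T := by
    intro k
    have h5 : F * G = (f * q).map (Int.castRingHom ℂ) := by rw [Polynomial.map_mul]
    rw [h5, Polynomial.coeff_map]
    have := h k
    simpa using this
  have h6 := mahler_le (2 * d) (F * G) h3 T h4
  rw [mahlerMeasure_mul] at h6
  have h7 := coeff_le d F hF i
  have h8 := coeff_le d G hG j
  rw [h1, h2]
  calc ‖F.coeff i‖ * ‖G.coeff j‖ ≤ (2 ^ d * F.mahlerMeasure) * (2 ^ d * G.mahlerMeasure) :=
        mul_le_mul h7 h8 (norm_nonneg _) (by have := F.mahlerMeasure_nonneg; positivity)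
    _ = 4 ^ d * (F.mahlerMeasure * G.mahlerMeasure) := by
        rw [show (4 : ℝ) ^ d = 2 ^ d * 2 ^ d by rw [← mul_pow]; norm_num]
        ring
    _ ≤ 4 ^ d * ((((2 * d : ℕ) : ℝ) + 1) * T) := by
        apply mul_le_mul_of_nonneg_left h6 (by positivity)
    _ = 4 ^ d * (2 * d + 1) * T := by push_cast; ring

end Pool.Agent.Q237.MP
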